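import Pool.Agent.Helper96.GB.Frames

/-! Traps, attracting fixed points and basins. -/

set_option autoImplicit false

open Set Filter Metric Topology

namespace Pool.Agent.Helper98.GB

open Pool.Agent.Helper96.GB

/-- the contraction estimate in a trap -/
theorem trap_dist {G : E → E} {t : E} {r : ℝ} (hG : Differentiable ℂ G) (hr : 0 < r)
    (hm : ∀ x ∈ closedBall t (4 * r), G x ∈ ball t r) {x y : E} (hx : x ∈ closedBall t r)
    (hy : y ∈ closedBall t r) : dist (G y) (G x) ≤ 2 / 3 * dist y x := by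
  have hsub : ball x (3 * r) ⊆ closedBall t (4 * r) := by
    intro z hz
    rw [mem_ball] at hz
    rw [mem_closedBall] at hx ⊢
    linarith [dist_triangle z x t]
  have hmx : G x ∈ ball t r := hm x (by rw [mem_closedBall] at hx ⊢; linarith)
  have hmap : MapsTo G (ball x (3 * r)) (closedBall (G x) (2 * r)) := by
    intro z hz
    have h1 := hm z (hsub hz)
    rw [mem_ball] at h1 hmx
    rw [mem_closedBall]
    linarith [dist_triangle (G z) t (G x), dist_comm t (G x)]
  have hyx : y ∈ ball x (3 * r) := by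
    rw [mem_closedBall] at hx hy
    rw [mem_ball]
    linarith [dist_triangle y t x, dist_comm t x]
  have h := Complex.dist_le_div_mul_dist_of_mapsTo_ball hG.differentiableOn hmap hyx
  have e : 2 * r / (3 * r) = 2 / 3 := by field_simp
  rwa [e] at h

theorem trap_fderiv {G : E → E} {t p : E} {r : ℝ} (hG : Differentiable ℂ G) (hr : 0 < r)
    (hm : ∀ x ∈ closedBall t (4 * r), G x ∈ ball t r) (hp : p ∈ closedBall t r) :
    ‖fderiv ℂ G p‖ < 1 := by
  have hsub : ball p (3 * r) ⊆ closedBall t (4 * r) := by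
    intro z hz
    rw [mem_ball] at hz
    rw [mem_closedBall] at hp ⊢
    linarith [dist_triangle z p t]
  have hmx : G p ∈ ball t r := hm p (by rw [mem_closedBall] at hp ⊢; linarith)
  have hmap : MapsTo G (ball p (3 * r)) (closedBall (G p) (2 * r)) := by
    intro z hz
    have h1 := hm z (hsub hz)
    rw [mem_ball] at h1 hmx
    rw [mem_closedBall]
    linarith [dist_triangle (G z) t (G p), dist_comm t (G p)]
  have h := Complex.norm_fderiv_le_div_of_mapsTo_ball hG.differentiableOn hmap (by positivity)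
  have e : 2 * r / (3 * r) = 2 / 3 := by field_simp
  rw [e] at h
  linarith

theorem s_TrapFix : S_TrapFix := by
  intro F t r n hF ⟨hr, hn, hm⟩
  have hG : Differentiable ℂ F^[n] := hF.iterate n
  have hsf : MapsTo F^[n] (closedBall t r) (closedBall t r) := by
    intro x hx
    exact ball_subset_closedBall (hm x (closedBall_subset_closedBall (by linarith) hx))
  have hcon : ContractingWith (2 / 3 : NNReal) (hsf.restrict F^[n] (closedBall t r)
      (closedBall t r)) := by
    refine ⟨?_, LipschitzWith.of_dist_le_mul fun x y => ?_⟩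
    · rw [div_lt_one (by norm_num)]
      norm_num
    · have h := trap_dist hG hr hm y.2 x.2
      have e : ((2 / 3 : NNReal) : ℝ) = 2 / 3 := by norm_num
      rw [e]
      exact h
  have hfix : ∀ x ∈ closedBall t r, ∃ y ∈ closedBall t r, Function.IsFixedPt F^[n] y ∧
      Tendsto (fun j => (F^[n])^[j] x) atTop (𝓝 y) := by
    intro x hx
    obtain ⟨y, hy, h1, h2, _⟩ := hcon.exists_fixedPoint' isClosed_closedBall.isComplete hsf hx
      (edist_ne_top _ _)
    exact ⟨y, hy, h1, h2⟩
  obtain ⟨p, hp, hpf, _⟩ := hfix t (mem_closedBall_self hr.le)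
  have hpb : p ∈ ball t r := by
    have h := hm p (closedBall_subset_closedBall (by linarith) hp)
    rwa [hpf.eq] at h
  refine ⟨p, hpb, hpf.eq, ?_, ?_⟩
  · intro x hx
    have hx1 : F^[n] x ∈ closedBall t r := ball_subset_closedBall (hm x (ball_subset_closedBall hx))
    obtain ⟨y, hy, hyf, hyt⟩ := hfix _ hx1
    have hyp : y = p := by
      have h := trap_dist hG hr hm hp hy
      rw [hyf.eq, hpf.eq] at h
      have h0 := dist_nonneg (x := y) (y := p)
      exact dist_le_zero.1 (by linarith)
    rw [hyp] at hyt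
    have h2 : Tendsto (fun j => (F^[n])^[j + 1] x) atTop (𝓝 p) := by
      simpa only [Function.iterate_succ, Function.comp_apply] using hyt
    have h3 := (tendsto_add_atTop_iff_nat (f := fun j => (F^[n])^[j] x) 1).1 h2
    simpa only [Function.iterate_mul] using h3
  · intro h1
    subst h1
    exact trap_fderiv hF hr (fun x hx => hm x hx) hp

theorem s_AttrTrap : S_AttrTrap := by
  intro F p hF ⟨hfix, n0, hn0⟩ δ hδ
  have hn0' : n0 ≠ 0 := by
    rintro rfl
    rw [pow_zero, norm_one] at hn0
    exact lt_irrefl _ hn0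
  obtain ⟨k, hk⟩ := exists_pow_lt_of_lt_one (show (0 : ℝ) < 1 / 20 by norm_num) hn0
  set m0 := n0 * (k + 1) with hm0
  have hm0' : 0 < m0 := by positivity
  have hFd : HasFDerivAt F (fderiv ℂ F p) p := (hF p).hasFDerivAt
  have hH : HasFDerivAt F^[m0] ((fderiv ℂ F p) ^ m0) p := hFd.iterate hfix m0
  have hnorm : ‖(fderiv ℂ F p) ^ m0‖ < 1 / 20 := by
    rw [hm0, pow_mul]
    refine (norm_pow_le' _ (Nat.succ_pos k)).trans_lt ?_
    refine lt_of_le_of_lt ?_ hk
    rw [pow_succ]
    exact mul_le_of_le_one_right (by positivity) hn0.le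
  have hHp : F^[m0] p = p := Function.iterate_fixed hfix m0
  -- the estimate near `p`
  have hev : ∀ᶠ x in 𝓝 p, ‖F^[m0] x - p‖ ≤ 1 / 10 * ‖x - p‖ := by
    have h1 := hH.isLittleO.def (show (0 : ℝ) < 1 / 20 by norm_num)
    filter_upwards [h1] with x hx
    rw [hHp] at hx
    have h2 := ((fderiv ℂ F p) ^ m0).le_opNorm (x - p)
    have h3 : ‖((fderiv ℂ F p) ^ m0) (x - p)‖ ≤ 1 / 20 * ‖x - p‖ :=
      h2.trans (mul_le_mul_of_nonneg_right hnorm.le (norm_nonneg _))
    calc ‖F^[m0] x - p‖ = ‖(F^[m0] x - p - ((fderiv ℂ F p) ^ m0) (x - p)) +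
          ((fderiv ℂ F p) ^ m0) (x - p)‖ := by rw [sub_add_cancel]
      _ ≤ _ := norm_add_le _ _
      _ ≤ 1 / 20 * ‖x - p‖ + 1 / 20 * ‖x - p‖ := add_le_add hx h3
      _ = 1 / 10 * ‖x - p‖ := by ring
  obtain ⟨η, hη, hball⟩ := Metric.eventually_nhds_iff_ball.1 hev
  have hmin : 0 < min δ (η / 6) := lt_min hδ (by positivity)
  obtain ⟨m, hm⟩ := exists_nat_one_div_lt hmin
  set r : ℝ := 1 / (m + 1 : ℝ) with hr
  have hr0 : 0 < r := by positivity
  obtain ⟨i, hi⟩ := (TopologicalSpace.denseRange_denseSeq E).exists_dist_lt p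
    (show (0 : ℝ) < r / 4 by positivity)
  refine ⟨i, m, m0, ⟨hr0, hm0', ?_⟩, ?_, hm.trans_le (min_le_left _ _)⟩
  · intro x hx
    rw [mem_closedBall] at hx
    have h6 : r < η / 6 := hm.trans_le (min_le_right _ _)
    have h1 : dist x p ≤ 4 * r + r / 4 := by
      have := dist_triangle x (TopologicalSpace.denseSeq E i) p
      rw [dist_comm (TopologicalSpace.denseSeq E i) p] at this
      linarith
    have h2 := hball x (by rw [mem_ball]; linarith)
    rw [← dist_eq_norm, ← dist_eq_norm] at h2
    rw [mem_ball]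
    have h3 := dist_triangle (F^[m0] x) p (TopologicalSpace.denseSeq E i)
    linarith
  · rw [mem_ball]
    linarith

theorem tendsto_residues {u : ℕ → E} {p : E} {n : ℕ} (hn : 0 < n)
    (h : ∀ i, Tendsto (fun j : ℕ => u (n * j + i)) atTop (𝓝 p)) : Tendsto u atTop (𝓝 p) := by
  rw [_root_.tendsto_nhds]
  intro U hU hp
  have h1 : ∀ i, ∃ J : ℕ, ∀ j ≥ J, u (n * j + i) ∈ U := by
    intro i
    exact eventually_atTop.1 ((h i).eventually (hU.mem_nhds hp))
  choose J hJ using h1
  refine eventually_atTop.2 ?_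
  refine ⟨n * ((Finset.range n).sup J), fun m hm => ?_⟩
  have h2 : m % n < n := Nat.mod_lt _ hn
  have h3 : J (m % n) ≤ m / n := by
    refine (Finset.le_sup (Finset.mem_range.2 h2)).trans ?_
    rw [Nat.le_div_iff_mul_le hn, mul_comm]
    exact hm
  have h4 := hJ (m % n) (m / n) h3
  rwa [Nat.div_add_mod] at h4

theorem s_BasinOm : S_BasinOm := by
  intro F p t r n hF hfix htrap hp
  obtain ⟨q, hq, hqf, hqt, _⟩ := s_TrapFix F t r n hF htrap
  obtain ⟨hr, hn, hm⟩ := htrap
  have hp4 : p ∈ ball t (4 * r) := ball_subset_ball (by linarith) hp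
  have hpq : p = q := by
    have h := hqt p hp4
    have h2 : (fun j : ℕ => F^[n * j] p) = fun _ => p := by
      funext j
      exact Function.iterate_fixed hfix _
    rw [h2] at h
    exact tendsto_nhds_unique tendsto_const_nhds h
  subst hpq
  ext x
  constructor
  · rintro ⟨k, hk⟩
    show Tendsto (fun n : ℕ => F^[n] x) atTop (𝓝 p)
    rw [← tendsto_add_atTop_iff_nat k]
    refine tendsto_residues hn fun i => ?_
    have h1 := hqt _ hk
    have hc : Continuous F^[i] := (hF.iterate i).continuous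
    have h2 := (hc.tendsto p).comp h1
    rw [Function.iterate_fixed hfix] at h2
    refine h2.congr fun j => ?_
    show F^[i] (F^[n * j] (F^[k] x)) = F^[n * j + i + k] x
    rw [← Function.iterate_add_apply, ← Function.iterate_add_apply]
    congr 2
    ring
  · intro hx
    have hx' : Tendsto (fun n : ℕ => F^[n] x) atTop (𝓝 p) := hx
    obtain ⟨k, hk⟩ := (hx'.eventually (isOpen_ball.mem_nhds hp4)).exists
    exact ⟨k, hk⟩

end Pool.Agent.Helper98.GB
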