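import Pool.Agent.Helper98.GB.X
import Pool.Agent.Helper96.GB.Frames2

/-! A far trap gives a far attracting fixed point. -/

set_option autoImplicit false

open Set Filter Metric Topology

namespace Pool.Agent.Helper98.GB

open Pool.Agent.Helper96.GB

theorem s_FarFix : S_FarFix := by
  intro M F hF ⟨t, r, r', n, hr', hrr, hn, h1, h2, hM⟩
  have hr : 0 < r := hr'.trans_le hrr
  have htrap : Trap F t r n := ⟨hr, hn, fun x hx => ball_subset_ball hrr (h1 x hx)⟩
  obtain ⟨p, hp, hfix, hconv, _⟩ := s_TrapFix F t r n hF htrap
  have hp4 : p ∈ closedBall t (4 * r) :=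
    ball_subset_closedBall (ball_subset_ball (by linarith) hp)
  have hp' : p ∈ ball t r' := by
    have h := h1 p hp4
    rwa [hfix] at h
  have hFp : F p ∈ ball t (4 * r) := h2 p (ball_subset_closedBall hp')
  have hcomm : ∀ j : ℕ, F^[n * j] (F p) = F p := by
    intro j
    rw [← Function.iterate_succ_apply, Function.iterate_succ_apply', Function.iterate_mul]
    congr 1
    exact Function.iterate_fixed hfix j
  have hFfix : F p = p := by
    have h := hconv _ hFp
    have h3 : (fun j : ℕ => F^[n * j] (F p)) = fun _ => F p := funext hcomm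
    rw [h3] at h
    exact tendsto_nhds_unique tendsto_const_nhds h
  refine ⟨p, ?_, hFfix, n, ?_⟩
  · have h := norm_sub_norm_le t p
    rw [← dist_eq_norm, dist_comm] at h
    rw [mem_ball] at hp
    linarith
  · have hFd : HasFDerivAt F (fderiv ℂ F p) p := (hF p).hasFDerivAt
    have hH : HasFDerivAt F^[n] ((fderiv ℂ F p) ^ n) p := hFd.iterate hFfix n
    rw [← hH.fderiv]
    exact trap_fderiv (hF.iterate n) hr (fun x hx => ball_subset_ball hrr (h1 x hx))
      (ball_subset_closedBall hp)

end Pool.Agent.Helper98.GB
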